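import Mathlib
import Pool.Agent.W558.WT.Stms

/-!
Project WT: the fixed field (GAL).
-/

set_option autoImplicit false

universe u

open Polynomial Pool.Agent.W558

namespace Pool.Agent.W435.WT.Gal

theorem zc_inj (p : ℕ) [Fact p.Prime] (E : Type u) [Field E] [CharP E p] :
    Function.Injective (zc p E) := (zc p E).injective

theorem exists_zc (p : ℕ) [Fact p.Prime] {E : Type u} [Field E] [CharP E p] {x : E}
    (h : x ^ p = x) : ∃ γ : ZMod p, zc p E γ = x := by
  have h1 : x ∈ (⊥ : Subfield E) := (Subfield.mem_bot_iff_pow_eq_self E p).2 h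
  have h2 : (⊥ : Subfield E) ≤ (zc p E).fieldRange := bot_le
  obtain ⟨γ, hγ⟩ := h2 h1
  exact ⟨γ, hγ⟩

theorem zc_pow (p : ℕ) [Fact p.Prime] {E : Type u} [Field E] [CharP E p] (γ : ZMod p) :
    zc p E γ ^ p = zc p E γ := by
  rw [← map_pow, ZMod.pow_card]

theorem as_natDegree (p : ℕ) [Fact p.Prime] {F : Type u} [Field F] (a : F) :
    (X ^ p - X - C a : F[X]).natDegree = p := by
  rw [Polynomial.natDegree_sub_C,
    FiniteField.X_pow_card_sub_X_natDegree_eq F (Fact.out (p := p.Prime)).one_lt]

theorem as_separable (p : ℕ) [Fact p.Prime] {F : Type u} [Field F] [CharP F p] (a : F) :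
    (X ^ p - X - C a : F[X]).Separable := by
  unfold Polynomial.Separable
  have h : derivative (X ^ p - X - C a : F[X]) = -1 := by
    rw [derivative_sub, derivative_sub, derivative_X_pow, derivative_X, derivative_C,
      CharP.cast_eq_zero]
    simp
  rw [h]
  exact isCoprime_one_right.neg_right

theorem as_splits (p : ℕ) [Fact p.Prime] {E : Type u} [Field E] [CharP E p] (z : E) :
    (X ^ p - X - C (z ^ p - z) : E[X]).Splits := by
  classical
  have hdeg := as_natDegree p (z ^ p - z)
  have hp := (Fact.out (p := p.Prime)).pos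
  have hne : (X ^ p - X - C (z ^ p - z) : E[X]) ≠ 0 := by
    intro h
    rw [h, natDegree_zero] at hdeg
    omega
  rw [Polynomial.splits_iff_card_roots]
  apply le_antisymm (Polynomial.card_roots' _)
  rw [hdeg]
  have hinj : Function.Injective (fun γ : ZMod p => z + zc p E γ) :=
    fun γ γ' h => zc_inj p E (add_left_cancel h)
  have hsub : Finset.univ.image (fun γ : ZMod p => z + zc p E γ) ⊆
      (X ^ p - X - C (z ^ p - z) : E[X]).roots.toFinset := by
    intro x hx
    rw [Finset.mem_image] at hx
    obtain ⟨γ, -, rfl⟩ := hx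
    rw [Multiset.mem_toFinset, mem_roots hne, IsRoot.def]
    simp only [eval_sub, eval_pow, eval_X, eval_C]
    rw [add_pow_char, zc_pow]
    ring
  calc p = (Finset.univ.image (fun γ : ZMod p => z + zc p E γ)).card := by
        rw [Finset.card_image_of_injective _ hinj, Finset.card_univ, ZMod.card]
    _ ≤ _ := Finset.card_le_card hsub
    _ ≤ _ := Multiset.toFinset_card_le _

theorem main : WT_gal.{u} := by
  classical
  intro p _ k E _ _ _ _ n L0 z e τ G hz hadj hτ hτz he y hy
  obtain ⟨W, hW⟩ : ∃ W : Set E, W = {w | ∃ c : Fin n → ZMod p,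
    (∀ g ∈ G, ∑ i, c i * (e i * g i) = 0) ∧ w = ∑ i, zc p E (c i) * z i} := ⟨_, rfl⟩
  rw [← hW]
  obtain ⟨K', hK'⟩ : ∃ K' : IntermediateField L0 E, K' = IntermediateField.adjoin L0 W := ⟨_, rfl⟩
  rw [← hK']
  have hWK : ∀ w ∈ W, w ∈ K' := by
    intro w hw
    rw [hK']
    exact IntermediateField.subset_adjoin _ _ hw
  have hLK : ∀ x ∈ L0, x ∈ K' := fun x hx => K'.algebraMap_mem ⟨x, hx⟩
  have hchar : CharP K' p := ((algebraMap K' E).charP_iff (algebraMap K' E).injective p).2
    inferInstance
  -- E = K'(z)
  have hadj' : IntermediateField.adjoin K' (Set.range z) = ⊤ := by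
    rw [eq_top_iff]
    intro x _
    have hx : x ∈ IntermediateField.adjoin L0 (Set.range z) := by rw [hadj]; trivial
    induction hx using IntermediateField.adjoin_induction with
    | mem x hx => exact IntermediateField.subset_adjoin _ _ hx
    | algebraMap x =>
      exact (IntermediateField.adjoin K' (Set.range z)).algebraMap_mem ⟨(x : E), hLK x x.2⟩
    | add x y _ _ h1 h2 => exact add_mem (h1 trivial) (h2 trivial)
    | inv x _ h1 => exact inv_mem (h1 trivial)
    | mul x y _ _ h1 h2 => exact mul_mem (h1 trivial) (h2 trivial)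
  have haev : ∀ i, aeval (z i) (X ^ p - X - C (⟨z i ^ p - z i, hLK _ (hz i)⟩ : K')) = 0 := by
    intro i
    simp only [map_sub, map_pow, aeval_X, aeval_C]
    exact sub_self _
  have hmonic : ∀ a : K', (X ^ p - X - C a : K'[X]).Monic := by
    intro a
    have h1 : (X ^ p - X - C a : K'[X]) = X ^ p - (X + C a) := by ring
    rw [h1]
    apply monic_X_pow_sub
    rw [degree_X_add_C]
    exact_mod_cast (Fact.out (p := p.Prime)).one_lt
  have hint : ∀ i, IsIntegral K' (z i) := fun i => ⟨_, hmonic _, haev i⟩
  have hdvd : ∀ i, minpoly K' (z i) ∣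
      (X ^ p - X - C (⟨z i ^ p - z i, hLK _ (hz i)⟩ : K')) := fun i => minpoly.dvd _ _ (haev i)
  have hspl : ∀ x ∈ Set.range z, IsIntegral K' x ∧
      ((minpoly K' x).map (algebraMap K' E)).Splits := by
    rintro _ ⟨i, rfl⟩
    refine ⟨hint i, ?_⟩
    have h1 : ((X ^ p - X - C (⟨z i ^ p - z i, hLK _ (hz i)⟩ : K')).map (algebraMap K' E)) =
        (X ^ p - X - C (z i ^ p - z i) : E[X]) := by
      simp only [Polynomial.map_sub, Polynomial.map_pow, map_X, map_C]
      rfl
    have h2 : (X ^ p - X - C (z i ^ p - z i) : E[X]) ≠ 0 := by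
      intro h
      have h3 := as_natDegree p (z i ^ p - z i)
      rw [h, natDegree_zero] at h3
      have := (Fact.out (p := p.Prime)).pos
      omega
    refine Polynomial.Splits.of_dvd (as_splits p (z i)) h2 ?_
    rw [← h1]
    exact Polynomial.map_dvd _ (hdvd i)
  have hnormal : Normal K' E := by
    rw [normal_iff]
    intro x
    have hx : x ∈ IntermediateField.adjoin K' (Set.range z) := by rw [hadj']; trivial
    have halg : Algebra.IsIntegral K' (IntermediateField.adjoin K' (Set.range z)) :=
      IntermediateField.isAlgebraic_adjoin (fun x hx => (hspl x hx).1) |>.isIntegral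
    refine ⟨?_, IntermediateField.splits_of_mem_adjoin K' E hspl hx⟩
    have h1 := halg.isIntegral ⟨x, hx⟩
    exact h1.map (IntermediateField.adjoin K' (Set.range z)).val
  have hsep : Algebra.IsSeparable K' E := by
    have h1 : Algebra.IsSeparable K' (IntermediateField.adjoin K' (Set.range z)) := by
      rw [IntermediateField.isSeparable_adjoin_iff_isSeparable]
      rintro _ ⟨i, rfl⟩
      exact (as_separable p _).of_dvd (hdvd i)
    rw [hadj'] at h1
    exact AlgEquiv.Algebra.isSeparable (IntermediateField.topEquiv (F := K') (E := E))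
  have hgal : IsGalois K' E := IsGalois.mk
  have hbot : y ∈ (⊥ : IntermediateField K' E) := by
    rw [InfiniteGalois.mem_bot_iff_fixed]
    intro ρ
    have hρK : ∀ x ∈ K', ρ x = x := fun x hx => ρ.commutes ⟨x, hx⟩
    have hγ : ∀ i, ∃ γ : ZMod p, zc p E γ = ρ (z i) - z i ∧ (e i = 0 → γ = 0) := by
      intro i
      by_cases hei : e i = 0
      · refine ⟨0, ?_, fun _ => rfl⟩
        rw [he i hei]
        simp
      · have h1 : (ρ (z i) - z i) ^ p = ρ (z i) - z i := by
          have h2 := hρK _ (hLK _ (hz i))
          rw [map_sub, map_pow] at h2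
          rw [sub_pow_char]
          linear_combination h2
        obtain ⟨γ, hγ⟩ := exists_zc p h1
        exact ⟨γ, hγ, fun h => absurd h hei⟩
    choose γ hγ1 hγ2 using hγ
    have horth : ∀ c : Fin n → ZMod p, (∀ g ∈ G, ∑ i, c i * (e i * g i) = 0) →
        ∑ i, c i * γ i = 0 := by
      intro c hc
      have h1 : ∑ i, zc p E (c i) * z i ∈ K' := hWK _ (by rw [hW]; exact ⟨c, hc, rfl⟩)
      have h2 := hρK _ h1
      rw [map_sum] at h2
      have h3 : ∀ i, ρ (zc p E (c i) * z i) = zc p E (c i) * z i + zc p E (c i * γ i) := by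
        intro i
        have h4 : ρ (zc p E (c i)) = zc p E (c i) := by
          have h5 : (ρ : E →+* E).comp (zc p E) = zc p E := RingHom.ext_zmod _ _
          exact RingHom.congr_fun h5 (c i)
        rw [map_mul, h4, map_mul (zc p E), hγ1]
        ring
      rw [Finset.sum_congr rfl (fun i _ => h3 i), Finset.sum_add_distrib] at h2
      have h5 : ∑ i, zc p E (c i * γ i) = 0 := by
        linear_combination h2
      rw [← map_sum] at h5
      exact zc_inj p E (by rw [h5, map_zero])
    obtain ⟨g, hg, hgγ⟩ : ∃ g ∈ G, ∀ i, γ i = e i * g i := by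
      by_contra hno
      push Not at hno
      obtain ⟨S, hS⟩ : ∃ S : Submodule (ZMod p) (Fin n → ZMod p),
          S = (AddSubgroup.toZModSubmodule p G).map (LinearMap.mulLeft (ZMod p) e) := ⟨_, rfl⟩
      have hnotin : γ ∉ S := by
        rw [hS, Submodule.mem_map]
        rintro ⟨g, hg, hge⟩
        obtain ⟨i, hi⟩ := hno g hg
        apply hi
        rw [← hge]
        rfl
      obtain ⟨f, hf1, hf2⟩ := Submodule.exists_dual_map_eq_bot_of_notMem hnotin inferInstance
      have hfx : ∀ x : Fin n → ZMod p, f x = ∑ i, f (fun j => if i = j then 1 else 0) * x i := by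
        intro x
        rw [LinearMap.pi_apply_eq_sum_univ f x]
        exact Finset.sum_congr rfl (fun i _ => by rw [smul_eq_mul, mul_comm])
      apply hf1
      rw [hfx]
      apply horth
      intro g hg
      rw [← hfx (fun i => e i * g i)]
      have h1 : f (fun i => e i * g i) ∈ S.map f := by
        refine Submodule.mem_map_of_mem ?_
        rw [hS]
        exact Submodule.mem_map_of_mem (f := LinearMap.mulLeft (ZMod p) e) hg
      rw [hf2] at h1
      exact h1
    have hagree : ρ y = τ g y := by
      have hyt : y ∈ IntermediateField.adjoin L0 (Set.range z) := by rw [hadj]; trivial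
      clear hy
      induction hyt using IntermediateField.adjoin_induction with
      | mem x hx =>
        obtain ⟨i, rfl⟩ := hx
        rw [hτz, ← hgγ, hγ1]
        ring
      | algebraMap x =>
        have h1 := hρK x (hLK x x.2)
        have h2 := hτ g x x.2
        exact h1.trans h2.symm
      | add x y _ _ h1 h2 => rw [map_add, map_add, h1, h2]
      | inv x _ h1 => rw [map_inv₀, map_inv₀, h1]
      | mul x y _ _ h1 h2 => rw [map_mul, map_mul, h1, h2]
    rw [hagree]
    exact hy g hg
  rw [IntermediateField.mem_bot] at hbot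
  obtain ⟨a, rfl⟩ := hbot
  exact a.2

end Pool.Agent.W435.WT.Gal
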